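import Pool.Agent.Y202.U.Stm

set_option autoImplicit false

/-! Project Y202/U, part DEC: product decay of the mixed differences. -/

namespace Pool.Agent.Y355.U

open Finset Pool.Agent.W788.NV Pool.Agent.W788.NW Pool.Agent.Y202.U

/-- change of a product when at most one factor grows and at most one factor shrinks -/
theorem prod_change {ι : Type} [DecidableEq ι] (S : Finset ι) (w w' : ι → ℝ)
    (hw : ∀ s ∈ S, 0 ≤ w s) (hw' : ∀ s ∈ S, 0 ≤ w' s)
    (hU : ∀ s ∈ S, ∀ t ∈ S, w s < w' s → w t < w' t → s = t)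
    (hD : ∀ s ∈ S, ∀ t ∈ S, w' s < w s → w' t < w t → s = t) :
    ∏ s ∈ S, w' s - ∏ s ∈ S, w s ≤ ∑ s ∈ S, (w' s - w s) * ∏ t ∈ S.erase s, w t := by
  induction S using Finset.induction_on with
  | empty => simp
  | insert a S ha ih =>
    have ih' := ih (fun s hs => hw s (mem_insert_of_mem hs)) (fun s hs => hw' s (mem_insert_of_mem hs))
      (fun s hs t ht => hU s (mem_insert_of_mem hs) t (mem_insert_of_mem ht))
      (fun s hs t ht => hD s (mem_insert_of_mem hs) t (mem_insert_of_mem ht))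
    rw [prod_insert ha, prod_insert ha, sum_insert ha, erase_insert ha]
    have e1 : ∑ s ∈ S, (w' s - w s) * ∏ t ∈ (insert a S).erase s, w t =
        w a * ∑ s ∈ S, (w' s - w s) * ∏ t ∈ S.erase s, w t := by
      rw [mul_sum]
      refine sum_congr rfl fun s hs => ?_
      have hsa : a ≠ s := fun h => ha (h ▸ hs)
      rw [erase_insert_of_ne hsa, prod_insert (fun h => ha (mem_of_mem_erase h))]
      ring
    rw [e1]
    have hwa := hw a (mem_insert_self _ _)
    have h1 := mul_le_mul_of_nonneg_left ih' hwa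
    have h2 : (w' a - w a) * (∏ s ∈ S, w' s - ∏ s ∈ S, w s) ≤ 0 := by
      rcases lt_trichotomy (w a) (w' a) with h | h | h
      · apply mul_nonpos_of_nonneg_of_nonpos (by linarith)
        rw [sub_nonpos]
        refine prod_le_prod (fun s hs => hw' s (mem_insert_of_mem hs)) fun s hs => ?_
        by_contra hc
        push Not at hc
        have := hU a (mem_insert_self _ _) s (mem_insert_of_mem hs) h hc
        exact ha (this ▸ hs)
      · rw [h, sub_self, zero_mul]
      · apply mul_nonpos_of_nonpos_of_nonneg (by linarith)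
        rw [sub_nonneg]
        refine prod_le_prod (fun s hs => hw s (mem_insert_of_mem hs)) fun s hs => ?_
        by_contra hc
        push Not at hc
        have := hD a (mem_insert_self _ _) s (mem_insert_of_mem hs) h hc
        exact ha (this ▸ hs)
    nlinarith

section

variable {V : Type} [Fintype V] [DecidableEq V] {q : ℕ}

/-- the dependence sets of the sites of `S` are disjoint -/
def Dj (S : Finset V) (Φ : Mp V q) : Prop :=
  ∀ a ∈ S, ∀ b ∈ S, ∀ v, v ∈ dep Φ a → v ∈ dep Φ b → a = b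

theorem dj_id (S : Finset V) : Dj S (id : Mp V q) := by
  intro a _ b _ v ha hb
  have h1 := (p_dl V q id a).2.2.2 ha
  have h2 := (p_dl V q id b).2.2.2 hb
  rw [mem_singleton] at h1 h2
  rw [← h1, ← h2]

theorem dj_move (S : Finset V) (e : (V × Fin q) ⊕ (V × V)) (Φ : Mp V q) (h : Dj S Φ) :
    Dj S (mL e Φ) := by
  intro a ha b hb v
  obtain ⟨a1, a2, a3, -⟩ := p_dl V q Φ a
  obtain ⟨b1, b2, b3, -⟩ := p_dl V q Φ b
  rcases e with ⟨w, c⟩ | ⟨w, u⟩
  · rw [a1, b1]
    intro h1 h2
    exact h a ha b hb v (mem_of_mem_erase h1) (mem_of_mem_erase h2)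
  · by_cases ua : u ∈ dep Φ a <;> by_cases ub : u ∈ dep Φ b
    · intro _ _
      exact h a ha b hb u ua ub
    · rw [a2 w u ua, b3 w u ub]
      intro h1 h2
      rw [mem_erase] at h2
      rw [mem_insert] at h1
      rcases h1 with h1 | h1
      · exact absurd h1 h2.1
      · exact h a ha b hb v h1 h2.2
    · rw [a3 w u ua, b2 w u ub]
      intro h1 h2
      rw [mem_erase] at h1
      rw [mem_insert] at h2
      rcases h2 with h2 | h2
      · exact absurd h2 h1.1
      · exact h a ha b hb v h1.2 h2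
    · rw [a3 w u ua, b3 w u ub]
      intro h1 h2
      exact h a ha b hb v (mem_of_mem_erase h1) (mem_of_mem_erase h2)

theorem wdep_nonneg (G : SimpleGraph V) (Φ : Mp V q) (v : V) : 0 ≤ wdep G Φ v :=
  sum_nonneg fun _ _ => by positivity

theorem wdep_mono (G : SimpleGraph V) {Φ Ψ : Mp V q} {v : V} (h : dep Φ v ⊆ dep Ψ v) :
    wdep G Φ v ≤ wdep G Ψ v :=
  sum_le_sum_of_subset_of_nonneg h fun _ _ _ => by positivity

/-- the site of a move which shrinks a dependence set belongs to it -/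
theorem down (G : SimpleGraph V) (e : (V × Fin q) ⊕ (V × V)) (Φ : Mp V q) (s : V)
    (h : wdep G (mL e Φ) s < wdep G Φ s) : site e ∈ dep Φ s := by
  obtain ⟨a1, a2, a3, -⟩ := p_dl V q Φ s
  by_contra hc
  apply absurd h
  rw [not_lt]
  apply wdep_mono
  rcases e with ⟨w, c⟩ | ⟨w, u⟩
  · have hc' : w ∉ dep Φ s := hc
    rw [a1, erase_eq_of_notMem hc']
  · by_cases hu : u ∈ dep Φ s
    · rw [a2 w u hu]
      exact subset_insert _ _
    · have hc' : w ∉ dep Φ s := hc
      rw [a3 w u hu, erase_eq_of_notMem hc']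

/-- a move which enlarges a dependence set reads it -/
theorem up (G : SimpleGraph V) (e : (V × Fin q) ⊕ (V × V)) (Φ : Mp V q) (s : V)
    (h : wdep G Φ s < wdep G (mL e Φ) s) : ∃ w u, e = Sum.inr (w, u) ∧ u ∈ dep Φ s := by
  obtain ⟨a1, a2, a3, -⟩ := p_dl V q Φ s
  rcases e with ⟨w, c⟩ | ⟨w, u⟩
  · apply absurd h
    rw [not_lt]
    apply wdep_mono
    rw [a1]
    exact erase_subset _ _
  · refine ⟨w, u, rfl, ?_⟩
    by_contra hu
    apply absurd h
    rw [not_lt]
    apply wdep_mono
    rw [a3 w u hu]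
    exact erase_subset _ _

/-- the drift of the product -/
theorem drift (G : SimpleGraph V) (θ : ℝ) (Δ : ℕ) (hS : SA G q θ Δ) (S : Finset V)
    (Φ : Mp V q) (hΦ : Dj S Φ) :
    gf (mrate G q θ) (mL (V := V) (q := q)) (fun Φ => ∏ a ∈ S, wdep G Φ a) Φ ≤
      -(θ * S.card) * ∏ a ∈ S, wdep G Φ a := by
  have hq : 1 ≤ q := le_trans one_le_two hS.q2
  have hr := (p_tot V G q θ hq hS.t0.le hS.t1 hS.d1).1
  have h1 : gf (mrate G q θ) (mL (V := V) (q := q)) (fun Φ => ∏ a ∈ S, wdep G Φ a) Φ ≤
      ∑ e : (V × Fin q) ⊕ (V × V), mrate G q θ e *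
        ∑ s ∈ S, (wdep G (mL e Φ) s - wdep G Φ s) * ∏ t ∈ S.erase s, wdep G Φ t := by
    unfold gf
    refine sum_le_sum fun e _ => mul_le_mul_of_nonneg_left ?_ (hr e)
    apply prod_change
    · exact fun s _ => wdep_nonneg G Φ s
    · exact fun s _ => wdep_nonneg G _ s
    · intro s hs t ht h2 h3
      obtain ⟨w, u, rfl, hu⟩ := up G e Φ s h2
      obtain ⟨w', u', he, hu'⟩ := up G _ Φ t h3
      have h4 : u = u' := by
        have := Sum.inr.inj he
        exact (Prod.mk.inj this).2
      subst h4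
      exact hΦ s hs t ht u hu hu'
    · intro s hs t ht h2 h3
      exact hΦ s hs t ht _ (down G e Φ s h2) (down G e Φ t h3)
  refine h1.trans (le_of_eq ?_)
  calc ∑ e : (V × Fin q) ⊕ (V × V), mrate G q θ e *
        ∑ s ∈ S, (wdep G (mL e Φ) s - wdep G Φ s) * ∏ t ∈ S.erase s, wdep G Φ t
      = ∑ s ∈ S, (∏ t ∈ S.erase s, wdep G Φ t) *
          gf (mrate G q θ) (mL (V := V) (q := q)) (fun Φ => wdep G Φ s) Φ := by
        simp only [mul_sum]
        rw [sum_comm]
        refine sum_congr rfl fun s _ => ?_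
        unfold gf
        rw [mul_sum]
        exact sum_congr rfl fun e _ => by ring
    _ = ∑ s ∈ S, -θ * ∏ a ∈ S, wdep G Φ a := by
        refine sum_congr rfl fun s hs => ?_
        rw [p_drf V G q θ hq hS.t0.le hS.t1 hS.d1 Φ s, ← mul_prod_erase S _ hs]
        ring
    _ = -(θ * S.card) * ∏ a ∈ S, wdep G Φ a := by
        rw [sum_const, nsmul_eq_mul]
        ring

theorem ex_prod (G : SimpleGraph V) (θ : ℝ) (Δ : ℕ) (hS : SA G q θ Δ) (S : Finset V) (r : ℝ)
    (hr0 : 0 ≤ r) :
    ex G q θ r (fun Φ => ∏ a ∈ S, wdep G Φ a) ≤ (Δ * Real.exp (-θ * r)) ^ S.card := by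
  have hq : 1 ≤ q := le_trans one_le_two hS.q2
  have hr := (p_tot V G q θ hq hS.t0.le hS.t1 hS.d1).1
  have lr : ex G q θ r (fun Φ => ∏ a ∈ S, wdep G Φ a) =
      sg (mrate G q θ) (mL (V := V) (q := q)) r (fun Φ => ∏ a ∈ S, wdep G Φ a) id :=
    p_lr (V → Fin q) _ (mrate G q θ) act (fun Φ => ∏ a ∈ S, wdep G Φ a) r
  rw [lr]
  have h1 := (p_inv (Mp V q) _ (mrate G q θ) (mL (V := V) (q := q)) (Dj S)
    (fun e Φ h _ => dj_move S e Φ h) (fun Φ => ∏ a ∈ S, wdep G Φ a)
    (fun Φ => ∏ a ∈ S, wdep G Φ a) id r (-(θ * S.card)) (dj_id S)).2.2 hr hr0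
    (fun Φ hΦ => drift G θ Δ hS S Φ hΦ)
  refine h1.trans ?_
  have h2 : ∏ a ∈ S, wdep G (id : Mp V q) a ≤ (Δ : ℝ) ^ S.card := by
    rw [← prod_const]
    refine prod_le_prod (fun a _ => wdep_nonneg G _ a) fun a _ => ?_
    have hs := (p_dl V q id a).2.2.2
    unfold wdep
    calc ∑ w ∈ dep (id : Mp V q) a, (dg G w : ℝ) ≤ ∑ w ∈ ({a} : Finset V), (dg G w : ℝ) :=
          sum_le_sum_of_subset_of_nonneg hs (fun _ _ _ => by positivity)
      _ = (dg G a : ℝ) := by simp
      _ ≤ Δ := by exact_mod_cast hS.dD a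
  refine (mul_le_mul_of_nonneg_left h2 (Real.exp_pos _).le).trans (le_of_eq ?_)
  rw [mul_pow, ← Real.exp_nat_mul, mul_comm]
  congr 2
  ring

/-- a function which does not depend on the site `a` -/
theorem dl_indep (S : Finset V) (c c' : V → Fin q) (g : (V → Fin q) → ℝ) (x : V → Fin q) (a : V)
    (ha : a ∉ S) (hg : ∀ y d, g (Function.update y a d) = g y) (d : Fin q) :
    Dl S c c' g (Function.update x a d) = Dl S c c' g x := by
  unfold Dl
  refine sum_congr rfl fun T hT => ?_
  have h1 : mix S T c c' (Function.update x a d) = Function.update (mix S T c c' x) a d := by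
    funext v
    by_cases hv : v = a
    · subst hv
      have h2 : v ∉ T := fun h => ha (mem_powerset.1 hT h)
      simp [mix, h2, ha]
    · simp [mix, hv]
  rw [h1, hg]

end

theorem dec (h0 : S_C0) : S_DEC := by
  intro V _ _ G q θ Δ hS S f hf x r hr0
  have hq : 1 ≤ q := le_trans one_le_two hS.q2
  have hr := (p_tot V G q θ hq hS.t0.le hS.t1 hS.d1).1
  have key : ∀ (Φ : Mp V q) (c c' : V → Fin q),
      |Dl S c c' (fun y => f (Φ y)) x| ≤ 2 ^ S.card * ∏ a ∈ S, wdep G Φ a := by
    intro Φ c c'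
    by_cases hd : ∃ a ∈ S, dep Φ a = ∅
    · obtain ⟨a, ha, hda⟩ := hd
      have hg : ∀ (y : V → Fin q) (d : Fin q), (fun y => f (Φ y)) (Function.update y a d) =
          (fun y => f (Φ y)) y := by
        intro y d
        have h1 : Φ (Function.update y a d) = Φ y := by
          funext w
          by_contra hne
          have h2 : w ∈ dep Φ a := by
            unfold dep
            rw [mem_filter]
            exact ⟨mem_univ _, y, d, hne⟩
          rw [hda] at h2
          exact absurd h2 (notMem_empty _)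
        show f (Φ (Function.update y a d)) = f (Φ y)
        rw [h1]
      have h2 := (h0 V q (S.erase a) c c' (fun y => f (Φ y)) x).1 a (notMem_erase _ _)
      rw [insert_erase ha] at h2
      rw [h2, dl_indep _ _ _ _ _ a (notMem_erase _ _) hg, dl_indep _ _ _ _ _ a (notMem_erase _ _) hg,
        sub_self, abs_zero]
      exact mul_nonneg (by positivity) (prod_nonneg fun a _ => wdep_nonneg G Φ a)
    · push Not at hd
      have h1 := (h0 V q S c c' (fun y => f (Φ y)) x).2.2.2.1 1 (fun y => hf _)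
      refine h1.trans (mul_le_mul_of_nonneg_left ?_ (by positivity))
      rw [← Finset.prod_const_one (s := S)]
      refine prod_le_prod (fun _ _ => zero_le_one) fun a ha => ?_
      have hne : (dep Φ a).Nonempty := hd a ha
      obtain ⟨w, hw⟩ := hne
      unfold wdep
      refine le_trans ?_ (single_le_sum (fun _ _ => by positivity) hw)
      exact_mod_cast hS.d1 w
  have hlin : ∀ (c c' : V → Fin q), Dl S c c' (pt G q θ r f) x =
      ex G q θ r (fun Φ => Dl S c c' (fun y => f (Φ y)) x) := by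
    intro c c'
    unfold Dl
    have h1 := p_mk.lin (Mp V q) _ S.powerset (mrate G q θ) (mR (V := V) (q := q))
      (fun T => (-1 : ℝ) ^ (S \ (T : Finset V)).card)
      (fun T Φ => f (Φ (mix S (T : Finset V) c c' x))) id r
    have h2 : ∀ Φ : Mp V q, (∑ T ∈ S.powerset, (-1 : ℝ) ^ (S \ T).card * f (Φ (mix S T c c' x))) =
        ∑ T : S.powerset, (-1 : ℝ) ^ (S \ (T : Finset V)).card *
          f (Φ (mix S (T : Finset V) c c' x)) := fun Φ =>
      (sum_coe_sort S.powerset (fun T => (-1 : ℝ) ^ (S \ T).card * f (Φ (mix S T c c' x)))).symm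
    simp only [h2]
    unfold ex
    rw [h1, sum_coe_sort S.powerset (fun T => (-1 : ℝ) ^ (S \ T).card *
      sg (mrate G q θ) (mR (V := V) (q := q)) r (fun Φ => f (Φ (mix S T c c' x))) id)]
    refine sum_congr rfl fun T _ => ?_
    congr 1
    exact ((p_eva V G q θ r).1 f (mix S T c c' x)).symm
  have smul : ∀ (c : ℝ) (F : Mp V q → ℝ), ex G q θ r (fun Φ => c * F Φ) = c * ex G q θ r F := by
    intro c F
    have h7 := p_mk.lin (Mp V q) _ Unit (mrate G q θ) (mR (V := V) (q := q)) (fun _ => c)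
      (fun _ => F) id r
    simpa [ex] using h7
  have hmain : ∀ (c c' : V → Fin q), |Dl S c c' (pt G q θ r f) x| ≤
      (2 * Δ * Real.exp (-θ * r)) ^ S.card := by
    intro c c'
    have hb : 2 ^ S.card * ex G q θ r (fun Φ => ∏ a ∈ S, wdep G Φ a) ≤
        (2 * Δ * Real.exp (-θ * r)) ^ S.card := by
      refine (mul_le_mul_of_nonneg_left (ex_prod G θ Δ hS S r hr0) (by positivity)).trans
        (le_of_eq ?_)
      rw [← mul_pow]
      congr 1
      ring
    rw [hlin, abs_le]
    constructor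
    · have h1 : ex G q θ r (fun Φ => (-2 ^ S.card) * ∏ a ∈ S, wdep G Φ a) ≤
          ex G q θ r (fun Φ => Dl S c c' (fun y => f (Φ y)) x) := by
        refine p_mk.mono _ _ _ _ _ _ id r hr hr0 fun Φ => ?_
        have := (abs_le.1 (key Φ c c')).1
        linarith
      rw [smul] at h1
      linarith
    · have h1 : ex G q θ r (fun Φ => Dl S c c' (fun y => f (Φ y)) x) ≤
          ex G q θ r (fun Φ => 2 ^ S.card * ∏ a ∈ S, wdep G Φ a) := by
        refine p_mk.mono _ _ _ _ _ _ id r hr hr0 fun Φ => ?_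
        exact (abs_le.1 (key Φ c c')).2
      rw [smul] at h1
      exact h1.trans hb
  unfold osc
  have : Nonempty ((V → Fin q) × (V → Fin q)) := ⟨(x, x)⟩
  exact ciSup_le fun p => hmain p.1 p.2

end Pool.Agent.Y355.U
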